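import Mathlib
import Pool.Agent.Helper11.Can.Defs

/-!
# CAN-L6 (MP_5f0950_ag): existence of minimal norm adapted weights
-/

universe u v t

open Finset Matrix

namespace Pool.Agent.Helper11.Can

open Pool.Agent.Helper10.GIT Pool.Agent.Helper11.GIT

variable {P : ℕ} {d : Fin P → ℕ}

namespace L6

/-- the words of length at most `n` are finitely many -/
lemma finite_words (n : ℕ) : {w : Words d | w.1.1 ≤ n}.Finite := by
  let f : (Σ b : Fin (n + 1), Σ χ : (Fin b → Fin P), Word d ⟨(b : ℕ), χ⟩) → Words d :=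
    fun x => ⟨⟨(x.1 : ℕ), x.2.1⟩, x.2.2⟩
  refine (Set.finite_range f).subset ?_
  rintro ⟨⟨b, χ⟩, w⟩ hw
  exact ⟨⟨⟨b, Nat.lt_succ_of_le hw⟩, ⟨χ, w⟩⟩, rfl⟩

/-- words in the support of a family which is concentrated in length at most `n` -/
lemma suppW_subset {κ : Type u} [Field κ] {A : Family d κ} {n : ℕ}
    (hn : ∀ χ : Shape P, n < χ.1 → A χ = ∅) (h : Mats d κ) :
    suppW h A ⊆ {w : Words d | w.1.1 ≤ n} := by
  intro w hw
  by_contra hlt
  have h1 : n < w.1.1 := not_le.mp hlt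
  obtain ⟨z, hz, -⟩ := hw
  rw [hn w.1 h1] at hz
  exact hz

/-- the weights which are adapted to given supports -/
def C (S : Set (Words d) × Set (Words d)) : Set (WSpace d) :=
  {γ | (∀ c, ∑ a, γ ⟨c, a⟩ = 0) ∧ (∀ w ∈ S.1, 0 ≤ wgt γ w) ∧ ∀ w ∈ S.2, 1 ≤ wgt γ w}

lemma continuous_wgt (w : Words d) : Continuous fun γ : WSpace d => wgt γ w := by
  unfold wgt
  fun_prop

lemma isClosed_C (S : Set (Words d) × Set (Words d)) : IsClosed (C S) := by
  have e : C S = {γ : WSpace d | ∀ c, ∑ a, γ ⟨c, a⟩ = 0} ∩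
      ({γ | ∀ w ∈ S.1, 0 ≤ wgt γ w} ∩ {γ | ∀ w ∈ S.2, 1 ≤ wgt γ w}) := by
    ext γ
    rfl
  rw [e]
  refine IsClosed.inter ?_ (IsClosed.inter ?_ ?_)
  · rw [Set.ofPred_forall]
    refine isClosed_iInter fun c => ?_
    exact isClosed_eq (by fun_prop) continuous_const
  · simp only [Set.ofPred_forall]
    refine isClosed_iInter fun w => isClosed_iInter fun _ => ?_
    exact isClosed_le continuous_const (continuous_wgt w)
  · simp only [Set.ofPred_forall]
    refine isClosed_iInter fun w => isClosed_iInter fun _ => ?_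
    exact isClosed_le continuous_const (continuous_wgt w)

/-- the set of adapted weights is closed -/
lemma isClosed_adapted {κ : Type u} [Field κ] {A N : Family d κ} (hNA : ∀ χ, N χ ⊆ A χ) {n : ℕ}
    (hn : ∀ χ : Shape P, n < χ.1 → A χ = ∅) :
    IsClosed {γ : WSpace d | ∃ h, Adapted A N h γ} := by
  have hn' : ∀ χ : Shape P, n < χ.1 → N χ = ∅ := fun χ hχ =>
    Set.subset_empty_iff.mp ((hn χ hχ) ▸ hNA χ)
  set F : Mats d κ → Set (Words d) × Set (Words d) := fun h => (suppW h A, suppW h N) with hF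
  set 𝒮 : Set (Set (Words d) × Set (Words d)) := F '' {h | ∀ c, (h c).det ≠ 0} with h𝒮
  have hfin : 𝒮.Finite := by
    have hp := (finite_words (d := d) n).finite_subsets
    refine (hp.prod hp).subset ?_
    rintro _ ⟨h, -, rfl⟩
    exact ⟨suppW_subset hn h, suppW_subset hn' h⟩
  have e : {γ : WSpace d | ∃ h, Adapted A N h γ} = ⋃ S ∈ 𝒮, C S := by
    ext γ
    simp only [Set.mem_ofPred_eq, Set.mem_iUnion, exists_prop]
    constructor
    · rintro ⟨h, ha⟩
      exact ⟨F h, ⟨h, ha.det, rfl⟩, ha.sum, ha.nonneg, ha.one_le⟩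
    · rintro ⟨_, ⟨h, hdet, rfl⟩, hC⟩
      exact ⟨h, hdet, hC.1, hC.2.1, hC.2.2⟩
  rw [e]
  exact hfin.isClosed_biUnion fun S _ => isClosed_C S

end L6

/-- CAN-L6: existence of optimal weights (the possible supports are finitely many; for given
supports the set of adapted weights is closed, so it contains one of minimal norm) -/
theorem exists_optimal {κ : Type u} [Field κ] {A N : Family d κ} (hNA : ∀ χ, N χ ⊆ A χ) {n : ℕ}
    (hn : ∀ χ, n < χ.1 → A χ = ∅) (hex : ∃ h γ, Adapted A N h γ) :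
    ∃ h γ, Optimal A N h γ := by
  obtain ⟨h₀, γ₀, h0⟩ := hex
  obtain ⟨γ, ⟨h, hγ⟩, hd⟩ := (L6.isClosed_adapted hNA hn).exists_infDist_eq_dist
    ⟨γ₀, h₀, h0⟩ (0 : WSpace d)
  refine ⟨h, γ, hγ, fun h' γ' h1 => ?_⟩
  have h2 : Metric.infDist (0 : WSpace d) {γ : WSpace d | ∃ h, Adapted A N h γ} ≤
      dist (0 : WSpace d) γ' := Metric.infDist_le_dist_of_mem ⟨h', h1⟩
  rw [hd, dist_zero_left, dist_zero_left] at h2
  exact h2

end Pool.Agent.Helper11.Can
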