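import Mathlib
import Pool.Agent.Helper11.Can.Coh
import Pool.Agent.Helper11.CanTypes

/-!
# CAN-C5 (MP_5f0950_ag): symmetries act on the tensors given by algebraic classes
-/

universe u v w t

open CategoryTheory Finset

namespace Pool.Agent.Helper11.Can

open Pool.Agent.Helper10 hiding IsAlgAut parityPart
open SmProjVar SPre Pool.Agent.Helper10.GIT Pool.Agent.Helper11.Iso Pool.Agent.Helper11.Can

section coh

variable {k : Type u} [Field k] {K : Type t} [Field K] {Ω : Type v} [Field Ω] [Algebra K Ω]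
  {S : SPre.{u, v, w, t} k K Ω} {P : ℕ} {d : Fin P → ℕ} {V : Fin P → SmProjVar k}

namespace C5

/-- the action of a symmetry on the product of the letters of a word -/
lemma sym_wd {e : ∀ c, Fin (d c) → S.H (V c)} (γ : S.Sym)
    (ρ : Mats d Ω) (hρ : ∀ c b, γ.g (V c) (e c b) = ∑ a, ρ c a b • e c a) {χ : Shape P}
    {T : SmProjVar k} (f : ∀ i : Fin χ.1, T.toOver ⟶ (V (χ.2 i)).toOver) (w : Word d χ) :
    γ.g T (wd S e f w) = ∑ w' : Word d χ, (∏ i, ρ (χ.2 i) (w' i) (w i)) • wd S e f w' := by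
  unfold wd
  rw [map_list_prod, List.map_ofFn]
  have h1 : (γ.g T ∘ fun i => S.pull (f i) (e (χ.2 i) (w i))) =
      fun i => ∑ a, ρ (χ.2 i) a (w i) • S.pull (f i) (e (χ.2 i) a) := by
    funext i
    change γ.g T (S.pull (f i) (e (χ.2 i) (w i))) = _
    rw [γ.pull, hρ, map_sum (S.pull (f i))]
    exact Finset.sum_congr rfl fun a _ => map_smul (S.pull (f i)) _ _
  rw [h1]
  exact ofFn_prod_sum (α := fun i : Fin χ.1 => Fin (d (χ.2 i)))
    (fun i a => ρ (χ.2 i) a (w i)) (fun i a => S.pull (f i) (e (χ.2 i) a))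

/-- the action of the transposed matrices on the tensors -/
lemma act_ctens {e : ∀ c, Fin (d c) → S.H (V c)} (γ : S.Sym)
    (ρ : Mats d Ω) (hρ : ∀ c b, γ.g (V c) (e c b) = ∑ a, ρ c a b • e c a) {χ : Shape P}
    {T X : SmProjVar k} (p : T.toOver ⟶ X.toOver)
    (f : ∀ i : Fin χ.1, T.toOver ⟶ (V (χ.2 i)).toOver) :
    ∃ l : Ω, ∀ (r : S.H T) (x : S.H X),
      act (sh (fun c => (ρ c).transpose) χ) (ctens S e p f (γ.g T r) (γ.g X x)) =
        ctens S e p f (l • r) x := by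
  obtain ⟨l, -, htr⟩ := γ.tr T
  refine ⟨l, fun r x => ?_⟩
  funext w
  rw [act_apply]
  unfold ctens
  rw [smul_mul_assoc, smul_mul_assoc, map_smul, smul_eq_mul, ← htr, map_mul (γ.g T),
    map_mul (γ.g T), γ.pull, sym_wd γ ρ hρ f w, Finset.mul_sum, map_sum]
  refine Finset.sum_congr rfl fun w' _ => ?_
  rw [mul_smul_comm, map_smul, smul_eq_mul]
  rfl

lemma rad_smul {T : SmProjVar k} {r : S.H T} (hr : S.rad T r) (l : Ω) : S.rad T (l • r) :=
  ⟨Submodule.smul_mem _ _ hr.1, fun a ha => by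
    rw [smul_mul_assoc, map_smul, hr.2 a ha, smul_zero]⟩

end C5

/-- CAN-C5: symmetries act on the tensors given by algebraic classes (see `act_wordSet` and
`Sym.word` in Helper10/Fam.lean: the action of the transposed matrices maps the tensor of
`(γ r, γ x)` to a multiple of the tensor of `(r, x)`) -/
theorem sym_famA {𝒳 : SmProjVar k → Prop} {e : ∀ c, Fin (d c) → S.H (V c)} (γ : S.Sym)
    (ρ : Mats d Ω) (hρ : ∀ c b, γ.g (V c) (e c b) = ∑ a, ρ c a b • e c a) {χ : Shape P}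
    {z : Ten d Ω χ} (hz : z ∈ famA S e 𝒳 χ) :
    act (sh (fun c => (ρ c).transpose) χ) z ∈ famA S e 𝒳 χ := by
  obtain ⟨T, X, p, f, r, x, hX, hr, rfl⟩ := hz
  obtain ⟨l, hl⟩ := C5.act_ctens γ ρ hρ p f
  obtain ⟨r', rfl⟩ := (γ.g T).surjective r
  obtain ⟨x', rfl⟩ := (γ.g X).surjective x
  exact ⟨T, X, p, f, l • r', x', hX, Submodule.smul_mem _ _ ((γ.alg T r').mp hr), hl r' x'⟩

/-- CAN-C5, second part -/
theorem sym_famN {𝒳 : SmProjVar k → Prop} {e : ∀ c, Fin (d c) → S.H (V c)} (γ : S.Sym)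
    (ρ : Mats d Ω) (hρ : ∀ c b, γ.g (V c) (e c b) = ∑ a, ρ c a b • e c a) {χ : Shape P}
    {z : Ten d Ω χ} (hz : z ∈ famN S e 𝒳 χ) :
    act (sh (fun c => (ρ c).transpose) χ) z ∈ famN S e 𝒳 χ := by
  obtain ⟨T, X, p, f, r, x, hX, hr, rfl⟩ := hz
  obtain ⟨l, hl⟩ := C5.act_ctens γ ρ hρ p f
  obtain ⟨x', rfl⟩ := (γ.g X).surjective x
  have h1 := γ.rad' hr
  refine ⟨T, X, p, f, l • (γ.g T).symm r, x', hX, C5.rad_smul h1 l, ?_⟩
  rw [← hl, AlgEquiv.apply_symm_apply]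

end coh

end Pool.Agent.Helper11.Can
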